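import Pool.Agent.H26.REM.Targets

/-!
# NRM: the norm of the exponents is a norm with finite balls
-/

set_option autoImplicit false

namespace Pool.Agent.H17.REM

open Pool.Agent.H26.REM Finset

theorem pf_NRM : T_NRM := by
  intro r lam H ξ hlam hH
  refine ⟨fun b => ?_, fun b c => ?_, fun q b => ?_, fun ρ => ?_⟩
  · unfold nrH
    have h1 : ((-b) 0 : ℤ) = -(b 0) := rfl
    have h2 : ∀ i : Fin r, ((-b) i.succ : ℤ) = -(b i.succ) := fun _ => rfl
    simp only [h1, h2]
    push_cast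
    rw [abs_neg]
    congr 1
    refine sum_congr rfl fun i _ => ?_
    congr 1
    rw [← abs_neg]
    congr 1
    ring
  · unfold nrH
    have h1 : ((b + c) 0 : ℤ) = b 0 + c 0 := rfl
    have h2 : ∀ i : Fin r, ((b + c) i.succ : ℤ) = b i.succ + c i.succ := fun _ => rfl
    simp only [h1, h2]
    push_cast
    have h3 : |(b 0 : ℝ) + c 0| * lam ≤ |(b 0 : ℝ)| * lam + |(c 0 : ℝ)| * lam := by
      rw [← add_mul]
      exact mul_le_mul_of_nonneg_right (abs_add_le _ _) hlam.le
    have h4 : ∑ i, H i * |(b i.succ : ℝ) + c i.succ - ((b 0 : ℝ) + c 0) * ξ i| ≤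
        ∑ i, H i * |(b i.succ : ℝ) - b 0 * ξ i| + ∑ i, H i * |(c i.succ : ℝ) - c 0 * ξ i| := by
      rw [← sum_add_distrib]
      refine sum_le_sum fun i _ => ?_
      rw [← mul_add]
      refine mul_le_mul_of_nonneg_left ?_ (hH i).le
      have e : (b i.succ : ℝ) + c i.succ - ((b 0 : ℝ) + c 0) * ξ i =
          ((b i.succ : ℝ) - b 0 * ξ i) + ((c i.succ : ℝ) - c 0 * ξ i) := by ring
      rw [e]
      exact abs_add_le _ _
    linarith
  · unfold nrH
    have h1 : ((q • b) 0 : ℤ) = q * b 0 := by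
      rw [Pi.smul_apply, nsmul_eq_mul]
    have h2 : ∀ i : Fin r, ((q • b) i.succ : ℤ) = q * b i.succ := by
      intro i
      rw [Pi.smul_apply, nsmul_eq_mul]
    simp only [h1, h2]
    push_cast
    have hq : |(q : ℝ)| = q := abs_of_nonneg (Nat.cast_nonneg q)
    rw [mul_add, abs_mul, hq, mul_sum, mul_assoc]
    congr 1
    refine sum_congr rfl fun i _ => ?_
    have e : (q : ℝ) * b i.succ - q * b 0 * ξ i = q * ((b i.succ : ℝ) - b 0 * ξ i) := by ring
    rw [e, abs_mul, hq]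
    ring
  · obtain ⟨C, hC⟩ : ∃ C : Fin (r + 1) → ℝ, C = Fin.cons (α := fun _ => ℝ) (ρ / lam)
      (fun i => ρ / H i + ρ / lam * |ξ i|) := ⟨_, rfl⟩
    refine (Set.finite_Icc (fun j => -⌈C j⌉ : Fin (r + 1) → ℤ) (fun j => ⌈C j⌉)).subset ?_
    intro b hb
    have hb' : |(b 0 : ℝ)| * lam + ∑ i, H i * |(b i.succ : ℝ) - b 0 * ξ i| ≤ ρ := hb
    have hs0 : ∀ i ∈ (univ : Finset (Fin r)), 0 ≤ H i * |(b i.succ : ℝ) - b 0 * ξ i| :=
      fun i _ => mul_nonneg (hH i).le (abs_nonneg _)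
    have h0 : |(b 0 : ℝ)| ≤ ρ / lam := by
      rw [le_div_iff₀ hlam]
      have := sum_nonneg hs0
      linarith
    have hi : ∀ i : Fin r, |(b i.succ : ℝ)| ≤ ρ / H i + ρ / lam * |ξ i| := by
      intro i
      have h1 : H i * |(b i.succ : ℝ) - b 0 * ξ i| ≤ ρ := by
        have h2 := single_le_sum hs0 (mem_univ i)
        have h3 : 0 ≤ |(b 0 : ℝ)| * lam := by positivity
        linarith
      have h4 : |(b i.succ : ℝ) - b 0 * ξ i| ≤ ρ / H i := by
        rw [le_div_iff₀ (hH i)]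
        linarith
      have e : (b i.succ : ℝ) = ((b i.succ : ℝ) - b 0 * ξ i) + b 0 * ξ i := by ring
      rw [e]
      refine (abs_add_le _ _).trans (add_le_add h4 ?_)
      rw [abs_mul]
      exact mul_le_mul_of_nonneg_right h0 (abs_nonneg _)
    have hall : ∀ j, |(b j : ℝ)| ≤ C j := by
      intro j
      rw [hC]
      refine Fin.cases ?_ (fun i => ?_) j
      · rw [Fin.cons_zero]
        exact h0
      · rw [Fin.cons_succ]
        exact hi i
    refine ⟨fun j => ?_, fun j => ?_⟩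
    · have h5 := (abs_le.1 (hall j)).1
      have h6 : -(⌈C j⌉ : ℝ) ≤ b j := by
        have := Int.le_ceil (C j)
        linarith
      exact_mod_cast h6
    · have h5 := (abs_le.1 (hall j)).2
      have h6 : (b j : ℝ) ≤ ⌈C j⌉ := h5.trans (Int.le_ceil (C j))
      exact_mod_cast h6

end Pool.Agent.H17.REM
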