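import Pool.Agent.H26.REM.Targets

/-!
# UPA: a family of maximal rank in the lattice of the pairs
-/

set_option autoImplicit false

namespace Pool.Agent.H17.REM

open Pool.Agent.H26.REM NumberField Finset Pointwise

/-- pairs, with the twisted action of `K` -/
def Tw {K : Type} [Field K] (M : Type) (_φ : K ≃+* K) : Type := M × M

section tw

variable {K M : Type} [Field K] [Field M] [Algebra K M] (φ : K ≃+* K)

instance : AddCommGroup (Tw M φ) := inferInstanceAs (AddCommGroup (M × M))

/-- the twisted structure map -/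
noncomputable def twr (M : Type) [Field M] [Algebra K M] : K →+* M × M :=
  RingHom.prod (algebraMap K M) ((algebraMap K M).comp (φ : K →+* K))

noncomputable instance : Module K (Tw M φ) :=
  (Module.compHom (M × M) (twr φ M) : Module K (M × M))

noncomputable instance [CharZero M] : Module ℚ (Tw M φ) := inferInstanceAs (Module ℚ (M × M))

/-- a pair -/
def Tw.mk (x : M × M) : Tw M φ := x

theorem tw_smul (c : K) (x : M × M) :
    c • Tw.mk φ x = Tw.mk φ (algebraMap K M c * x.1, algebraMap K M (φ c) * x.2) := rfl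

omit [Algebra K M] in
theorem tw_qsmul [CharZero M] (q : ℚ) (x : M × M) :
    q • Tw.mk φ x = Tw.mk φ (q • x.1, q • x.2) := rfl

instance [CharZero K] [CharZero M] : IsScalarTower ℚ K (Tw M φ) := by
  refine ⟨fun q c x => ?_⟩
  have h1 : algebraMap K M (q • c) = q • algebraMap K M c := map_rat_smul (algebraMap K M) q c
  have h2 : φ (q • c) = q • φ c := map_rat_smul φ q c
  have h3 : algebraMap K M (q • φ c) = q • algebraMap K M (φ c) :=
    map_rat_smul (algebraMap K M) q (φ c)
  have key : ∀ y : M × M, (q • c) • Tw.mk φ y = q • c • Tw.mk φ y := by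
    intro y
    rw [tw_smul, tw_smul, tw_qsmul, h1, h2, h3, smul_mul_assoc, smul_mul_assoc]
  exact key x

end tw

theorem pf_UPA : T_UPA := by
  intro K M _ _ _ _ _ φ p S _ Y ω hω
  classical
  obtain ⟨P, hP⟩ : ∃ P : S → Tw M φ, P = fun b => Tw.mk φ (Y b, Y b ^ p) := ⟨_, rfl⟩
  have hPb : ∀ s, P s = Tw.mk φ (Y s, Y s ^ p) := fun s => by rw [hP]
  have hfin : Module.Finite K (Submodule.span K (Set.range P)) :=
    FiniteDimensional.span_of_finite K (Set.finite_range P)
  obtain ⟨f, hfs, hspan, hli⟩ := Submodule.exists_fun_fin_finrank_span_eq K (Set.range P)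
  obtain ⟨r, hr⟩ : ∃ r, r = Module.finrank K (Submodule.span K (Set.range P)) := ⟨_, rfl⟩
  have hb : ∀ i, ∃ b, P b = f i := fun i => hfs i
  choose b hb using hb
  have hω2 : Submodule.span ℚ (Set.range fun l => (ω l : K)) = ⊤ :=
    hω.span_eq_top_of_card_eq_finrank' (Fintype.card_fin _)
  have hv := linearIndependent_smul (R := ℚ) hω hli
  -- the family
  have hvf : (fun q : Fin (Module.finrank ℚ K) ×
      Fin (Module.finrank K (Submodule.span K (Set.range P))) =>
      ((ω q.1 : K) • f q.2 : Tw M φ)) = fun q => Tw.mk φ (algebraMap K M (ω q.1 : K) * Y (b q.2),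
        algebraMap K M (φ (ω q.1 : K)) * Y (b q.2) ^ p) := by
    funext q
    rw [← hb q.2, hPb, tw_smul]
  have hmem : ∀ (c : K) (x : 𝓞 K) (s : S), (x : K) = c →
      ((algebraMap K M c * Y s, algebraMap K M (φ c) * Y s ^ p) : M × M) ∈ Lam φ p Y := by
    rintro c x s rfl
    refine ⟨Pi.single s x, ?_⟩
    show (lam φ p Y) (Pi.single s x) = _
    show ((∑ t, algebraMap K M ((Pi.single s x : S → 𝓞 K) t : K) * Y t,
      ∑ t, algebraMap K M (φ ((Pi.single s x : S → 𝓞 K) t : K)) * Y t ^ p) : M × M) = _
    rw [Finset.sum_eq_single s, Finset.sum_eq_single s, Pi.single_eq_same]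
    · intro t _ ht
      rw [Pi.single_eq_of_ne ht]
      simp
    · intro h; exact absurd (mem_univ s) h
    · intro t _ ht
      rw [Pi.single_eq_of_ne ht]
      simp
    · intro h; exact absurd (mem_univ s) h
  have hset : Submodule.span ℚ ((Lam φ p Y : Set (M × M))) =
      Submodule.span ℚ (Set.range (fun q : Fin (Module.finrank ℚ K) ×
      Fin (Module.finrank K (Submodule.span K (Set.range P))) =>
      ((algebraMap K M (ω q.1 : K) * Y (b q.2),
        algebraMap K M (φ (ω q.1 : K)) * Y (b q.2) ^ p) : M × M))) := by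
    apply le_antisymm
    · rw [Submodule.span_le]
      rintro x ⟨c, rfl⟩
      have h1 : (∑ t, (c t : K) • P t : Tw M φ) ∈ Submodule.span K (Set.range P) :=
        Submodule.sum_mem _ fun t _ => Submodule.smul_mem _ _
          (Submodule.subset_span ⟨t, rfl⟩)
      rw [← hspan] at h1
      have h2 : (∑ t, (c t : K) • P t : Tw M φ) ∈
          (Submodule.span K (Set.range f)).restrictScalars ℚ := h1
      rw [← Submodule.span_smul_of_span_eq_top hω2 (Set.range f)] at h2
      have h3 : (Set.range fun l => (ω l : K)) • (Set.range f) ⊆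
          Set.range (fun q : Fin (Module.finrank ℚ K) ×
      Fin (Module.finrank K (Submodule.span K (Set.range P))) =>
      ((ω q.1 : K) • f q.2 : Tw M φ)) := by
        rintro _ ⟨_, ⟨l, rfl⟩, _, ⟨j, rfl⟩, rfl⟩
        exact ⟨(l, j), rfl⟩
      have h4 := Submodule.span_mono h3 h2
      rw [hvf] at h4
      have h5 : (∑ t, (c t : K) • P t : Tw M φ) =
          Tw.mk φ ((lam φ p Y).toIntLinearMap c) := by
        show (∑ t, (c t : K) • P t : Tw M φ) =
          Tw.mk φ (∑ t, algebraMap K M (c t : K) * Y t,
            ∑ t, algebraMap K M (φ (c t : K)) * Y t ^ p)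
        have h6 : ∀ s : Finset S, (∑ t ∈ s, (c t : K) • P t : Tw M φ) =
          Tw.mk φ (∑ t ∈ s, algebraMap K M (c t : K) * Y t,
            ∑ t ∈ s, algebraMap K M (φ (c t : K)) * Y t ^ p) := by
          intro s
          induction s using Finset.induction_on with
          | empty => rfl
          | insert a s ha ih =>
            rw [sum_insert ha, sum_insert ha, sum_insert ha, ih, hPb, tw_smul]
            rfl
        exact h6 univ
      rw [h5] at h4
      exact h4
    · rw [Submodule.span_le]
      rintro _ ⟨q, rfl⟩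
      exact Submodule.subset_span (hmem _ (ω q.1) (b q.2) rfl)
  refine ⟨Module.finrank K (Submodule.span K (Set.range P)), b, ?_, ?_, ?_⟩
  · rw [hvf] at hv
    exact hv
  · intro l
    exact hmem _ (ω l.1) (b l.2) rfl
  · rw [hset]
    have hv2 : LinearIndependent ℚ (fun q : Fin (Module.finrank ℚ K) ×
      Fin (Module.finrank K (Submodule.span K (Set.range P))) =>
      ((algebraMap K M (ω q.1 : K) * Y (b q.2),
        algebraMap K M (φ (ω q.1 : K)) * Y (b q.2) ^ p) : M × M)) := by
      rw [hvf] at hv
      exact hv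
    rw [finrank_span_eq_card hv2, Fintype.card_prod, Fintype.card_fin, Fintype.card_fin]

end Pool.Agent.H17.REM
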